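import Pool.Agent.H958R6.Gauge

/-!
# The knight's move region: number of tilings through the Green function
-/

namespace H958R6

open Finset Polynomial Pool.Agent.Helper848
open Pool.Agent.Helper848.AztecDet (E O K0 G K0_G abs_det_K0 abs_det_minor)

theorem abs_det_K0' (n : ℕ) (hn : 1 ≤ n) (e : E n ≃ O n) :
    |((K0 n).submatrix e id).det| = 2 ^ (n * (n + 1) / 2) := by
  obtain ⟨N, rfl⟩ := Nat.exists_eq_add_of_le' hn
  exact abs_det_K0 N e

theorem count_gen (n : ℕ) (hn : 2 ≤ n) (o1 oe : O n) (e2 ee : E n) (hne : ee ≠ e2)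
    (γ : ℕ → ℚ) (t0 : ℕ)
    (hγ : ∑ k ∈ Finset.range (n + 1), C (γ k) * ((1 + X) ^ k * (1 - X) ^ (n - k) : ℚ[X]) = X ^ t0)
    (ht1 : (o1.2 : ℕ) = t0) (hte : (oe.2 : ℕ) = t0)
    (hh : (Ec n e2 = (0, 1) ∧ Oc n o1 = (-1, -1)) ∨ (Ec n e2 = (-1, -1) ∧ Oc n o1 = (0, 1)))
    (hκ : K0 n oe ee = 1) (a : O n → ℕ) (b : E n → ℕ)
    (hg : ∀ o x, o ≠ o1 → x ≠ e2 →
      (((-1 : ℤ) ^ (a o) * (-1 : ℤ) ^ (b x) * kast (knight n) (Oc n o) (Ec n x) : ℤ) : ℚ) =
        if o = oe ∧ x = ee then -1 else K0 n o x) :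
    (numTilings (knight n) : ℚ) = 2 ^ (n * (n + 1) / 2) *
      |(G n γ (o1.1 + 1) e2.1).coeff e2.2 * (1 - 2 * (G n γ (oe.1 + 1) ee.1).coeff ee.2) +
        2 * ((G n γ (oe.1 + 1) e2.1).coeff e2.2 * (G n γ (o1.1 + 1) ee.1).coeff ee.2)| := by
  classical
  have hcard : Fintype.card {x : E n // x ≠ e2} = Fintype.card {o : O n // o ≠ o1} := by
    rw [Fintype.card_subtype_compl, Fintype.card_subtype_compl]
    simp only [Fintype.card_prod, Fintype.card_fin, Fintype.card_unique]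
    rw [Nat.mul_comm]
  set φ : {x : E n // x ≠ e2} ≃ {o : O n // o ≠ o1} := Fintype.equivOfCardEq hcard with hφ
  have h1 : ∀ o : O n, ∑ x : E n, K0 n o x * (G n γ (o1.1 + 1) x.1).coeff x.2 =
      if o = o1 then 1 else 0 := by
    intro o
    rw [K0_G n γ (o1.1 + 1) t0 (by omega) (by have := o1.1.2; omega) hγ o]
    apply if_congr _ rfl rfl
    constructor
    · rintro ⟨h, h'⟩
      ext
      · omega
      · omega
    · rintro rfl
      exact ⟨rfl, ht1⟩
  have h2 : ∀ o : O n, ∑ x : E n, K0 n o x * (G n γ (oe.1 + 1) x.1).coeff x.2 =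
      if o = oe then 1 else 0 := by
    intro o
    rw [K0_G n γ (oe.1 + 1) t0 (by omega) (by have := oe.1.2; omega) hγ o]
    apply if_congr _ rfl rfl
    constructor
    · rintro ⟨h, h'⟩
      ext
      · omega
      · omega
    · rintro rfl
      exact ⟨rfl, hte⟩
  obtain ⟨e, he⟩ := abs_det_minor (K0 n) (fun x => (G n γ (o1.1 + 1) x.1).coeff x.2)
    (fun x => (G n γ (oe.1 + 1) x.1).coeff x.2) o1 oe e2 ee hne h1 h2 hκ φ
  rw [abs_det_K0' n (by omega) e] at he
  rw [← he]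
  set M : Matrix {x : E n // x ≠ e2} {x : E n // x ≠ e2} ℤ := Matrix.of fun i j =>
    (-1 : ℤ) ^ (a (φ i)) * (-1 : ℤ) ^ (b j) * kast (knight n) (Oc n (φ i)) (Ec n j) with hM
  have hnt : numTilings (knight n) = M.det.natAbs := by
    refine numTilings_eq ((n : ℤ) + 1) (knight n) (fun j : {x : E n // x ≠ e2} => Ec n j)
      (fun i => Oc n (φ i)) ?_ ?_ ?_ ?_ (fun i => (-1) ^ (a (φ i))) (fun j => (-1) ^ (b j)) M ?_
    · intro i j hij
      exact Subtype.ext (Ec_inj n hij)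
    · intro i j hij
      exact φ.injective (Subtype.ext (Oc_inj n hij))
    · intro p
      have hp := exists_Ec n p
      have hO1 := (exists_Oc n (Oc n o1)).mp ⟨o1, rfl⟩
      have hE2 := (exists_Ec n (Ec n e2)).mp ⟨e2, rfl⟩
      constructor
      · rintro ⟨i, rfl⟩
        have h3 := (exists_Ec n (Ec n i)).mp ⟨i, rfl⟩
        refine ⟨?_, h3.2⟩
        unfold knight
        rw [mem_sdiff, mem_insert, mem_singleton]
        refine ⟨h3.1, ?_⟩
        have q1 : Ec n i ≠ Ec n e2 := fun h => i.2 (Ec_inj n h)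
        have q2 : Ec n i ≠ Oc n o1 := fun h => hO1.2 (by rw [← h]; exact h3.2)
        rcases hh with ⟨hh1, hh2⟩ | ⟨hh1, hh2⟩
        · rw [hh1] at q1; rw [hh2] at q2; tauto
        · rw [hh1] at q1; rw [hh2] at q2; tauto
      · rintro ⟨h3, h4⟩
        unfold knight at h3
        rw [mem_sdiff, mem_insert, mem_singleton] at h3
        obtain ⟨x, hx⟩ := hp.mpr ⟨h3.1, h4⟩
        refine ⟨⟨x, ?_⟩, hx⟩
        rintro rfl
        apply h3.2
        rcases hh with ⟨hh1, _⟩ | ⟨hh1, _⟩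
        · right; rw [← hx, hh1]
        · left; rw [← hx, hh1]
    · intro p
      have hp := exists_Oc n p
      have hO1 := (exists_Oc n (Oc n o1)).mp ⟨o1, rfl⟩
      have hE2 := (exists_Ec n (Ec n e2)).mp ⟨e2, rfl⟩
      constructor
      · rintro ⟨i, rfl⟩
        have h3 := (exists_Oc n (Oc n (φ i))).mp ⟨φ i, rfl⟩
        refine ⟨?_, h3.2⟩
        unfold knight
        rw [mem_sdiff, mem_insert, mem_singleton]
        refine ⟨h3.1, ?_⟩
        have q1 : Oc n (φ i) ≠ Oc n o1 := fun h => (φ i).2 (Oc_inj n h)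
        have q2 : Oc n (φ i) ≠ Ec n e2 := fun h => h3.2 (by rw [h]; exact hE2.2)
        rcases hh with ⟨hh1, hh2⟩ | ⟨hh1, hh2⟩
        · rw [hh2] at q1; rw [hh1] at q2; tauto
        · rw [hh2] at q1; rw [hh1] at q2; tauto
      · rintro ⟨h3, h4⟩
        unfold knight at h3
        rw [mem_sdiff, mem_insert, mem_singleton] at h3
        obtain ⟨x, hx⟩ := hp.mpr ⟨h3.1, h4⟩
        have hx1 : x ≠ o1 := by
          rintro rfl
          apply h3.2
          rcases hh with ⟨_, hh1⟩ | ⟨_, hh1⟩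
          · left; rw [← hx, hh1]
          · right; rw [← hx, hh1]
        refine ⟨φ.symm ⟨x, hx1⟩, ?_⟩
        simp only [Equiv.apply_symm_apply]
        exact hx
    · intro i j
      rw [hM, Matrix.of_apply]
      push_cast
      rfl
  rw [hnt]
  have hcast : ((M.det.natAbs : ℕ) : ℚ) = |((M.det : ℤ) : ℚ)| := by
    rw [Nat.cast_natAbs, Int.cast_abs]
  rw [hcast]
  have hmap : ((M.det : ℤ) : ℚ) = (Matrix.of fun i j : {x : E n // x ≠ e2} =>
      if (φ i : O n) = oe ∧ (j : E n) = ee then (-1 : ℚ) else K0 n (φ i) j).det := by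
    have h3 := (Int.castRingHom ℚ).map_det M
    rw [eq_intCast] at h3
    rw [h3]
    congr 1
    ext i j
    rw [RingHom.mapMatrix_apply, Matrix.map_apply, hM, Matrix.of_apply, Matrix.of_apply,
      eq_intCast, hg (φ i) j (φ i).2 j.2]
  rw [hmap]

end H958R6
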