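import Pool.Agent.Helper848.Domino

/-!
# The Aztec diamond without a knight's-move pair of squares: definitions
-/

namespace H958R6

/-- The Aztec diamond of order `n`. The pair `(p, q)` stands for the unit square
`[p, p + 1] × [q, q + 1]`; its centre `(x, y) = (p + 1/2, q + 1/2)` satisfies `|x| + |y| ≤ n`. -/
noncomputable def aztec (n : ℕ) : Finset (ℤ × ℤ) :=
  ((Finset.Icc (-(n : ℤ)) n) ×ˢ (Finset.Icc (-(n : ℤ)) n)).filter
    fun c => |2 * c.1 + 1| + |2 * c.2 + 1| ≤ 2 * (n : ℤ)

/-- The Aztec diamond without the unit squares with centres `(-1/2, -1/2)` and `(1/2, 3/2)`. -/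
noncomputable def knight (n : ℕ) : Finset (ℤ × ℤ) := aztec n \ {(-1, -1), (0, 1)}

end H958R6
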