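import Pool.Agent.Helper848.AztecDet

/-!
# Knight's move pair in the Aztec diamond: statements of the algebraic tasks
-/

namespace H958R6

open Polynomial Finset Pool.Agent.Helper848.AztecDet

/-- `c j = binom(2j,j) / 4^j` -/
noncomputable def c (j : ℕ) : ℚ := ((2 * j).choose j : ℚ) / 4 ^ j

/-- coefficients of `X^m` in the basis `(1+X)^k (1-X)^(2m-k)` -/
noncomputable def ge (m k : ℕ) : ℚ :=
  if k % 2 = 0 then (-1) ^ (m + k / 2) * (m.choose (k / 2) : ℚ) / 4 ^ m else 0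

/-- coefficients of `X^m` in the basis `(1+X)^k (1-X)^(2m+1-k)` -/
noncomputable def go (m k : ℕ) : ℚ :=
  (-1) ^ (m + k / 2) * (m.choose (k / 2) : ℚ) / (2 * 4 ^ m)

/-- von Szily's identity -/
def TaskSz : Prop := ∀ i j : ℕ, ((1 + X) ^ (2 * j) * (1 - X) ^ (2 * i) : ℚ[X]).coeff (i + j) *
  ((i + j).choose i : ℚ) = (-1) ^ i * ((2 * i).choose i : ℚ) * ((2 * j).choose j : ℚ)

def TaskGe : Prop := ∀ m : ℕ, ∑ k ∈ range (2 * m + 1),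
  C (ge m k) * ((1 + X) ^ k * (1 - X) ^ (2 * m - k) : ℚ[X]) = X ^ m

def TaskGo : Prop := ∀ m : ℕ, ∑ k ∈ range (2 * m + 1 + 1),
  C (go m k) * ((1 + X) ^ k * (1 - X) ^ (2 * m + 1 - k) : ℚ[X]) = X ^ m

/-- the four Green function values for `n = 2m` as sums -/
def TaskVE : Prop := ∀ m : ℕ, 1 ≤ m →
  (G (2 * m) (ge m) m (m + 1)).coeff (m - 1) =
    1 / 2 * ∑ j ∈ (range (m + 1)).filter (fun j => 2 * j < m),
      (2 * j + 1 : ℚ) / (2 * m - 2 * j - 1) * (c j * c (m - j)) ∧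
  (G (2 * m) (ge m) m m).coeff (m - 1) =
    - (1 / 2) * ∑ j ∈ (range (m + 1)).filter (fun j => 2 * j < m), c j * c (m - j) ∧
  (G (2 * m) (ge m) (m + 1) (m + 1)).coeff (m - 1) =
    - (1 / 2) * ∑ j ∈ (range (m + 1)).filter (fun j => 2 * j ≤ m), c j * c (m - j) ∧
  (G (2 * m) (ge m) (m + 1) m).coeff (m - 1) =
    1 / 2 * ∑ j ∈ (range (m + 1)).filter (fun j => m < 2 * j), c j * c (m - j)

/-- the four Green function values for `n = 2m+1` as sums -/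
def TaskVO : Prop := ∀ m : ℕ, 1 ≤ m →
  (G (2 * m + 1) (go m) (m + 2) m).coeff m =
    1 / 2 * ∑ j ∈ (range (m + 1)).filter (fun j => m ≤ 2 * j),
      (m - j : ℚ) / (j + 1) * (c j * c (m - j)) ∧
  (G (2 * m + 1) (go m) (m + 2) (m + 1)).coeff m =
    1 / 2 * ∑ j ∈ (range (m + 1)).filter (fun j => m < 2 * j), c j * c (m - j) ∧
  (G (2 * m + 1) (go m) (m + 1) m).coeff m =
    1 / 2 * ∑ j ∈ (range (m + 1)).filter (fun j => m ≤ 2 * j), c j * c (m - j) ∧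
  (G (2 * m + 1) (go m) (m + 1) (m + 1)).coeff m =
    1 / 2 * ∑ j ∈ (range (m + 1)).filter (fun j => 2 * j ≤ m), c j * c (m - j)

/-- half convolutions -/
def TaskConv : Prop :=
  (∀ l : ℕ, ∑ j ∈ (range (2 * l + 1 + 1)).filter (fun j => 2 * j < 2 * l + 1),
      c j * c (2 * l + 1 - j) = 1 / 2) ∧
  (∀ l : ℕ, ∑ j ∈ (range (2 * l + 1 + 1)).filter (fun j => 2 * l + 1 < 2 * j),
      c j * c (2 * l + 1 - j) = 1 / 2) ∧
  (∀ l : ℕ, ∑ j ∈ (range (2 * l + 1)).filter (fun j => 2 * j < 2 * l), c j * c (2 * l - j) =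
      (1 - c l ^ 2) / 2) ∧
  (∀ l : ℕ, ∑ j ∈ (range (2 * l + 1)).filter (fun j => 2 * l < 2 * j), c j * c (2 * l - j) =
      (1 - c l ^ 2) / 2) ∧
  (∀ l : ℕ, ∑ j ∈ (range (2 * l + 1)).filter (fun j => 2 * j ≤ 2 * l), c j * c (2 * l - j) =
      (1 + c l ^ 2) / 2) ∧
  (∀ l : ℕ, ∑ j ∈ (range (2 * l + 1)).filter (fun j => 2 * l ≤ 2 * j), c j * c (2 * l - j) =
      (1 + c l ^ 2) / 2)

/-- weighted half convolutions -/
def TaskW : Prop :=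
  (∀ l : ℕ, ∑ j ∈ (range (2 * l + 1 + 1)).filter (fun j => 2 * j < 2 * l + 1),
      (2 * j + 1 : ℚ) / (2 * ((2 * l + 1 : ℕ) : ℚ) - 2 * j - 1) * (c j * c (2 * l + 1 - j)) =
      (2 * l + 1) * c l ^ 2 - 1 / 2) ∧
  (∀ l : ℕ, 1 ≤ l → ∑ j ∈ (range (2 * l + 1)).filter (fun j => 2 * j < 2 * l),
      (2 * j + 1 : ℚ) / (2 * ((2 * l : ℕ) : ℚ) - 2 * j - 1) * (c j * c (2 * l - j)) =
      2 * l * c l ^ 2 - (1 - c l ^ 2) / 2) ∧
  (∀ l : ℕ, ∑ j ∈ (range (2 * l + 1 + 1)).filter (fun j => 2 * l + 1 ≤ 2 * j),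
      (((2 * l + 1 : ℕ) : ℚ) - j) / (j + 1) * (c j * c (2 * l + 1 - j)) =
      2 * (l + 1) * c (l + 1) ^ 2 - 1 / 2) ∧
  (∀ l : ℕ, 1 ≤ l → ∑ j ∈ (range (2 * l + 1)).filter (fun j => 2 * l ≤ 2 * j),
      (((2 * l : ℕ) : ℚ) - j) / (j + 1) * (c j * c (2 * l - j)) =
      (2 * l + 1) * c l ^ 2 - (1 + c l ^ 2) / 2)

end H958R6
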