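import Pool.Agent.H958R6.Count
import Pool.Agent.H958R6.Stmts

/-!
# The knight's move region: closed formula
-/

namespace H958R6

open Finset Polynomial Pool.Agent.Helper848
open Pool.Agent.Helper848.AztecDet (E O K0 G)

theorem count_even (hGe : TaskGe) (m : ℕ) (hm : 1 ≤ m) :
    (numTilings (knight (2 * m)) : ℚ) = 2 ^ (2 * m * (2 * m + 1) / 2) *
      |(G (2 * m) (ge m) m (m + 1)).coeff (m - 1) *
          (1 - 2 * (G (2 * m) (ge m) (m + 1) m).coeff (m - 1)) +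
        2 * ((G (2 * m) (ge m) (m + 1) (m + 1)).coeff (m - 1) *
          (G (2 * m) (ge m) m m).coeff (m - 1))| := by
  have h := count_gen (2 * m) (by omega) (⟨m - 1, by omega⟩, ⟨m, by omega⟩)
    (⟨m, by omega⟩, ⟨m, by omega⟩) (⟨m + 1, by omega⟩, ⟨m - 1, by omega⟩)
    (⟨m, by omega⟩, ⟨m - 1, by omega⟩) (by simp) (ge m) m (hGe m) rfl rfl
    (Or.inl ⟨by simp only [Ec]; ext <;> simp only <;> omega,
      by simp only [Oc]; ext <;> simp only <;> omega⟩)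
    (by simp [K0, Nat.sub_add_cancel hm]; omega) (aE m) (bE m) (by
      intro o x ho hx
      have ho' : ¬ ((o.1 : ℕ) + 1 = m ∧ (o.2 : ℕ) = m) := by
        rintro ⟨h1, h2⟩
        apply ho
        ext <;> simp only <;> omega
      have hx' : ¬ ((x.1 : ℕ) = m + 1 ∧ (x.2 : ℕ) + 1 = m) := by
        rintro ⟨h1, h2⟩
        apply hx
        ext <;> simp only <;> omega
      rw [gauge_even m hm o x ho' hx']
      apply if_congr _ rfl rfl
      rcases o with ⟨⟨s, hs⟩, ⟨t, ht⟩⟩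
      rcases x with ⟨⟨s', hs'⟩, ⟨t', ht'⟩⟩
      simp only [Prod.mk.injEq, Fin.mk.injEq]
      omega)
  simp only [Nat.sub_add_cancel hm] at h
  exact h

theorem count_odd (hGo : TaskGo) (m : ℕ) (hm : 1 ≤ m) :
    (numTilings (knight (2 * m + 1)) : ℚ) = 2 ^ ((2 * m + 1) * (2 * m + 1 + 1) / 2) *
      |(G (2 * m + 1) (go m) (m + 2) m).coeff m *
          (1 - 2 * (G (2 * m + 1) (go m) (m + 1) (m + 1)).coeff m) +
        2 * ((G (2 * m + 1) (go m) (m + 1) m).coeff m *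
          (G (2 * m + 1) (go m) (m + 2) (m + 1)).coeff m)| := by
  have h := count_gen (2 * m + 1) (by omega) (⟨m + 1, by omega⟩, ⟨m, by omega⟩)
    (⟨m, by omega⟩, ⟨m, by omega⟩) (⟨m, by omega⟩, ⟨m, by omega⟩)
    (⟨m + 1, by omega⟩, ⟨m, by omega⟩) (by simp) (go m) m (hGo m) rfl rfl
    (Or.inr ⟨by simp only [Ec]; ext <;> simp only <;> omega,
      by simp only [Oc]; ext <;> simp only <;> omega⟩)
    (by simp [K0]) (aO m) (bO m) (by
      intro o x ho hx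
      have ho' : ¬ ((o.1 : ℕ) = m + 1 ∧ (o.2 : ℕ) = m) := by
        rintro ⟨h1, h2⟩
        apply ho
        ext <;> simp only <;> omega
      have hx' : ¬ ((x.1 : ℕ) = m ∧ (x.2 : ℕ) = m) := by
        rintro ⟨h1, h2⟩
        apply hx
        ext <;> simp only <;> omega
      rw [gauge_odd m hm o x ho' hx']
      apply if_congr _ rfl rfl
      rcases o with ⟨⟨s, hs⟩, ⟨t, ht⟩⟩
      rcases x with ⟨⟨s', hs'⟩, ⟨t', ht'⟩⟩
      simp only [Prod.mk.injEq, Fin.mk.injEq])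
  exact h

theorem filt_le (l : ℕ) (f : ℕ → ℚ) :
    ∑ j ∈ (range (2 * l + 1 + 1)).filter (fun j => 2 * j ≤ 2 * l + 1), f j =
      ∑ j ∈ (range (2 * l + 1 + 1)).filter (fun j => 2 * j < 2 * l + 1), f j := by
  congr 1
  ext j
  simp only [mem_filter, mem_range]
  omega

theorem filt_ge (l : ℕ) (f : ℕ → ℚ) :
    ∑ j ∈ (range (2 * l + 1 + 1)).filter (fun j => 2 * l + 1 ≤ 2 * j), f j =
      ∑ j ∈ (range (2 * l + 1 + 1)).filter (fun j => 2 * l + 1 < 2 * j), f j := by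
  congr 1
  ext j
  simp only [mem_filter, mem_range]
  omega

theorem c_sq (j : ℕ) : c j ^ 2 = (Nat.centralBinom j : ℚ) ^ 2 / 16 ^ j := by
  unfold c Nat.centralBinom
  rw [div_pow, ← pow_mul, mul_comm j 2, pow_mul]
  norm_num

theorem cb_le (j : ℕ) : Nat.centralBinom j ^ 2 ≤ 16 ^ j := by
  have h : Nat.centralBinom j ≤ 2 ^ (2 * j) := Nat.choose_le_two_pow _ _
  calc Nat.centralBinom j ^ 2 ≤ (2 ^ (2 * j)) ^ 2 := Nat.pow_le_pow_left h 2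
    _ = 16 ^ j := by rw [← pow_mul, show 2 * j * 2 = 4 * j by ring, pow_mul]; norm_num

section
variable (hGe : TaskGe) (hGo : TaskGo) (hVE : TaskVE) (hVO : TaskVO) (hC : TaskConv) (hW : TaskW)
include hC hW

include hGe hVE in
theorem val2 (k : ℕ) : numTilings (knight (4 * k + 2)) =
    (2 * k + 1) * Nat.centralBinom k ^ 2 * 2 ^ (8 * k ^ 2 + 6 * k + 1) := by
  have h := count_even hGe (2 * k + 1) (by omega)
  obtain ⟨v1, v2, v3, v4⟩ := hVE (2 * k + 1) (by omega)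
  rw [v1, v2, v3, v4, hW.1 k, filt_le, hC.1 k, hC.2.1 k] at h
  rw [show 2 * (2 * k + 1) = 4 * k + 2 by ring] at h
  have e : (4 * k + 2) * (4 * k + 2 + 1) / 2 = (8 * k ^ 2 + 6 * k + 1) + (4 * k + 2) := by
    rw [Nat.div_eq_iff_eq_mul_left (by norm_num)]
    · ring
    · exact ⟨(2 * k + 1) * (4 * k + 3), by ring⟩
  rw [e, show |1 / 2 * ((2 * (k : ℚ) + 1) * c k ^ 2 - 1 / 2) * (1 - 2 * (1 / 2 * (1 / 2))) +
    2 * (-(1 / 2) * (1 / 2) * (-(1 / 2) * (1 / 2)))| = (2 * k + 1) * c k ^ 2 / 4 by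
      rw [show 1 / 2 * ((2 * (k : ℚ) + 1) * c k ^ 2 - 1 / 2) * (1 - 2 * (1 / 2 * (1 / 2))) +
        2 * (-(1 / 2) * (1 / 2) * (-(1 / 2) * (1 / 2))) = (2 * k + 1) * c k ^ 2 / 4 by ring]
      exact abs_of_nonneg (by positivity), c_sq, pow_add, show (2 : ℚ) ^ (4 * k + 2) = 16 ^ k * 4 by
        rw [pow_add, pow_mul]; norm_num] at h
  have h16 : (16 : ℚ) ^ k ≠ 0 := by positivity
  have h2 : (numTilings (knight (4 * k + 2)) : ℚ) =
      (((2 * k + 1) * Nat.centralBinom k ^ 2 * 2 ^ (8 * k ^ 2 + 6 * k + 1) : ℕ) : ℚ) := by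
    rw [h]
    push_cast
    field_simp
  exact_mod_cast h2

include hGo hVO in
theorem val3 (k : ℕ) : numTilings (knight (4 * k + 3)) =
    (k + 1) * Nat.centralBinom (k + 1) ^ 2 * 2 ^ (8 * k ^ 2 + 10 * k + 1) := by
  have h := count_odd hGo (2 * k + 1) (by omega)
  obtain ⟨v1, v2, v3, v4⟩ := hVO (2 * k + 1) (by omega)
  rw [v1, v2, v3, v4, hW.2.2.1 k, filt_le, filt_ge, hC.1 k, hC.2.1 k] at h
  rw [show 2 * (2 * k + 1) + 1 = 4 * k + 3 by ring] at h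
  have e : (4 * k + 3) * (4 * k + 3 + 1) / 2 = (8 * k ^ 2 + 10 * k + 1) + (4 * (k + 1) + 1) := by
    rw [Nat.div_eq_iff_eq_mul_left (by norm_num)]
    · ring
    · exact ⟨(4 * k + 3) * (2 * k + 2), by ring⟩
  rw [e, show |1 / 2 * (2 * ((k : ℚ) + 1) * c (k + 1) ^ 2 - 1 / 2) * (1 - 2 * (1 / 2 * (1 / 2))) +
    2 * (1 / 2 * (1 / 2) * (1 / 2 * (1 / 2)))| = (k + 1) * c (k + 1) ^ 2 / 2 by
      rw [show 1 / 2 * (2 * ((k : ℚ) + 1) * c (k + 1) ^ 2 - 1 / 2) * (1 - 2 * (1 / 2 * (1 / 2))) +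
        2 * (1 / 2 * (1 / 2) * (1 / 2 * (1 / 2))) = (k + 1) * c (k + 1) ^ 2 / 2 by ring]
      exact abs_of_nonneg (by positivity), c_sq, pow_add,
      show (2 : ℚ) ^ (4 * (k + 1) + 1) = 16 ^ (k + 1) * 2 by
        rw [pow_add, pow_mul]; norm_num] at h
  have h16 : (16 : ℚ) ^ (k + 1) ≠ 0 := by positivity
  have h2 : (numTilings (knight (4 * k + 3)) : ℚ) =
      (((k + 1) * Nat.centralBinom (k + 1) ^ 2 * 2 ^ (8 * k ^ 2 + 10 * k + 1) : ℕ) : ℚ) := by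
    rw [h]
    push_cast
    field_simp
  exact_mod_cast h2

include hGe hVE in
theorem val4 (k : ℕ) : numTilings (knight (4 * k + 4)) =
    (k + 1) * Nat.centralBinom (k + 1) ^ 2 * (16 ^ (k + 1) + Nat.centralBinom (k + 1) ^ 2) *
      2 ^ (8 * k ^ 2 + 10 * k + 1) := by
  have h := count_even hGe (2 * (k + 1)) (by omega)
  obtain ⟨v1, v2, v3, v4⟩ := hVE (2 * (k + 1)) (by omega)
  rw [v1, v2, v3, v4, hW.2.1 (k + 1) (by omega), hC.2.2.1 (k + 1), hC.2.2.2.1 (k + 1),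
    hC.2.2.2.2.1 (k + 1)] at h
  rw [show 2 * (2 * (k + 1)) = 4 * k + 4 by ring] at h
  have e : (4 * k + 4) * (4 * k + 4 + 1) / 2 = (8 * k ^ 2 + 10 * k + 1) + (8 * (k + 1) + 1) := by
    rw [Nat.div_eq_iff_eq_mul_left (by norm_num)]
    · ring
    · exact ⟨(2 * k + 2) * (4 * k + 5), by ring⟩
  have e2 : |1 / 2 * (2 * ((k + 1 : ℕ) : ℚ) * c (k + 1) ^ 2 - (1 - c (k + 1) ^ 2) / 2) *
      (1 - 2 * (1 / 2 * ((1 - c (k + 1) ^ 2) / 2))) +
    2 * (-(1 / 2) * ((1 + c (k + 1) ^ 2) / 2) * (-(1 / 2) * ((1 - c (k + 1) ^ 2) / 2)))| =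
      (k + 1) * c (k + 1) ^ 2 * (1 + c (k + 1) ^ 2) / 2 := by
    rw [show 1 / 2 * (2 * ((k + 1 : ℕ) : ℚ) * c (k + 1) ^ 2 - (1 - c (k + 1) ^ 2) / 2) *
      (1 - 2 * (1 / 2 * ((1 - c (k + 1) ^ 2) / 2))) +
    2 * (-(1 / 2) * ((1 + c (k + 1) ^ 2) / 2) * (-(1 / 2) * ((1 - c (k + 1) ^ 2) / 2))) =
      (k + 1) * c (k + 1) ^ 2 * (1 + c (k + 1) ^ 2) / 2 by push_cast; ring]
    exact abs_of_nonneg (by positivity)
  rw [e, e2, c_sq, pow_add, show (2 : ℚ) ^ (8 * (k + 1) + 1) = 16 ^ (k + 1) * 16 ^ (k + 1) * 2 by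
        rw [pow_add, pow_mul, ← mul_pow]; norm_num] at h
  have h16 : (16 : ℚ) ^ (k + 1) ≠ 0 := by positivity
  have h2 : (numTilings (knight (4 * k + 4)) : ℚ) =
      (((k + 1) * Nat.centralBinom (k + 1) ^ 2 * (16 ^ (k + 1) + Nat.centralBinom (k + 1) ^ 2) *
        2 ^ (8 * k ^ 2 + 10 * k + 1) : ℕ) : ℚ) := by
    rw [h]
    push_cast
    field_simp
  exact_mod_cast h2

include hGo hVO in
theorem val5 (k : ℕ) : numTilings (knight (4 * k + 5)) =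
    (2 * k + 3) * Nat.centralBinom (k + 1) ^ 2 * (16 ^ (k + 1) - Nat.centralBinom (k + 1) ^ 2) *
      2 ^ (8 * k ^ 2 + 14 * k + 5) := by
  have h := count_odd hGo (2 * (k + 1)) (by omega)
  obtain ⟨v1, v2, v3, v4⟩ := hVO (2 * (k + 1)) (by omega)
  rw [v1, v2, v3, v4, hW.2.2.2 (k + 1) (by omega), hC.2.2.2.1 (k + 1), hC.2.2.2.2.1 (k + 1),
    hC.2.2.2.2.2 (k + 1)] at h
  rw [show 2 * (2 * (k + 1)) + 1 = 4 * k + 5 by ring] at h
  have e : (4 * k + 5) * (4 * k + 5 + 1) / 2 = (8 * k ^ 2 + 14 * k + 5) + (8 * (k + 1) + 2) := by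
    rw [Nat.div_eq_iff_eq_mul_left (by norm_num)]
    · ring
    · exact ⟨(4 * k + 5) * (2 * k + 3), by ring⟩
  have hc1 : c (k + 1) ^ 2 ≤ 1 := by
    rw [c_sq, div_le_one (by positivity)]
    exact_mod_cast cb_le (k + 1)
  have e2 : |1 / 2 * ((2 * ((k + 1 : ℕ) : ℚ) + 1) * c (k + 1) ^ 2 - (1 + c (k + 1) ^ 2) / 2) *
      (1 - 2 * (1 / 2 * ((1 + c (k + 1) ^ 2) / 2))) +
    2 * (1 / 2 * ((1 + c (k + 1) ^ 2) / 2) * (1 / 2 * ((1 - c (k + 1) ^ 2) / 2)))| =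
      (2 * k + 3) * c (k + 1) ^ 2 * (1 - c (k + 1) ^ 2) / 4 := by
    rw [show 1 / 2 * ((2 * ((k + 1 : ℕ) : ℚ) + 1) * c (k + 1) ^ 2 - (1 + c (k + 1) ^ 2) / 2) *
      (1 - 2 * (1 / 2 * ((1 + c (k + 1) ^ 2) / 2))) +
    2 * (1 / 2 * ((1 + c (k + 1) ^ 2) / 2) * (1 / 2 * ((1 - c (k + 1) ^ 2) / 2))) =
      (2 * k + 3) * c (k + 1) ^ 2 * (1 - c (k + 1) ^ 2) / 4 by push_cast; ring]
    apply abs_of_nonneg
    have : 0 ≤ 1 - c (k + 1) ^ 2 := by linarith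
    positivity
  rw [e, e2, c_sq, pow_add, show (2 : ℚ) ^ (8 * (k + 1) + 2) = 16 ^ (k + 1) * 16 ^ (k + 1) * 4 by
        rw [pow_add, pow_mul, ← mul_pow]; norm_num] at h
  have h16 : (16 : ℚ) ^ (k + 1) ≠ 0 := by positivity
  have h2 : (numTilings (knight (4 * k + 5)) : ℚ) =
      (((2 * k + 3) * Nat.centralBinom (k + 1) ^ 2 * (16 ^ (k + 1) - Nat.centralBinom (k + 1) ^ 2) *
        2 ^ (8 * k ^ 2 + 14 * k + 5) : ℕ) : ℚ) := by
    rw [h]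
    push_cast [Nat.cast_sub (cb_le (k + 1))]
    field_simp
  exact_mod_cast h2

end

end H958R6
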