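import Pool.Agent.H958R6.Region

/-!
# The knight's move region: gauge transformation
-/

namespace H958R6

open Finset Pool.Agent.Helper848
open Pool.Agent.Helper848.AztecDet (E O K0)

theorem neg_pow_eq_one {k : ℕ} (h : k % 2 = 0) : ((-1 : ℚ)) ^ k = 1 :=
  (Nat.even_iff.mpr h).neg_one_pow

theorem neg_pow_eq_neg {k : ℕ} (h : k % 2 = 1) : ((-1 : ℚ)) ^ k = -1 :=
  (Nat.odd_iff.mpr h).neg_one_pow

theorem kast_eq (R : Finset (ℤ × ℤ)) (n : ℕ) (o : O n) (x : E n) :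
    kast R (Oc n o) (Ec n x) =
      if ((x.1 : ℕ) = o.1 ∨ (x.1 : ℕ) = o.1 + 1) ∧ (x.2 : ℕ) = o.2 then
        (-1) ^ (above R (Ec n x) + below R (Oc n o))
      else if ((x.1 : ℕ) = o.1 ∨ (x.1 : ℕ) = o.1 + 1) ∧ (x.2 : ℕ) + 1 = o.2 then 1 else 0 := by
  unfold kast
  by_cases h1 : ((x.1 : ℕ) = o.1 ∨ (x.1 : ℕ) = o.1 + 1) ∧ (x.2 : ℕ) = o.2
  · rw [if_pos h1, if_pos, if_pos]
    · simp only [Ec, Oc]; omega
    · unfold Adj; simp only [Ec, Oc]; omega
  · rw [if_neg h1]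
    by_cases h2 : ((x.1 : ℕ) = o.1 ∨ (x.1 : ℕ) = o.1 + 1) ∧ (x.2 : ℕ) + 1 = o.2
    · rw [if_pos h2, if_pos, if_neg]
      · simp only [Ec, Oc]; omega
      · unfold Adj; simp only [Ec, Oc]; omega
    · rw [if_neg h2, if_neg]
      unfold Adj; simp only [Ec, Oc]; omega

/-- gauge exponents, `n = 2m` -/
def aE (m : ℕ) (o : O (2 * m)) : ℕ :=
  o.1 + (if (o.2 : ℕ) = m ∧ (o.1 : ℕ) + 1 ≤ m then 1 else 0) + (if m + 1 ≤ (o.2 : ℕ) then 1 else 0)

def bE (m : ℕ) (x : E (2 * m)) : ℕ :=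
  x.1 + (if (x.2 : ℕ) + 1 = m ∧ (x.1 : ℕ) ≤ m then 1 else 0) + (if m ≤ (x.2 : ℕ) then 1 else 0)

theorem gauge_even (m : ℕ) (hm : 1 ≤ m) (o : O (2 * m)) (x : E (2 * m))
    (ho : ¬ ((o.1 : ℕ) + 1 = m ∧ (o.2 : ℕ) = m)) (hx : ¬ ((x.1 : ℕ) = m + 1 ∧ (x.2 : ℕ) + 1 = m)) :
    (((-1 : ℤ) ^ (aE m o) * (-1 : ℤ) ^ (bE m x) * kast (knight (2 * m)) (Oc _ o) (Ec _ x) : ℤ) : ℚ) =
      if ((o.1 : ℕ) = m ∧ (o.2 : ℕ) = m) ∧ ((x.1 : ℕ) = m ∧ (x.2 : ℕ) + 1 = m) then -1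
      else K0 (2 * m) o x := by
  have hA := above_knight (2 * m) (by omega) x
  have hB := below_knight (2 * m) (by omega) o
  rw [kast_eq]
  generalize above (knight (2 * m)) (Ec (2 * m) x) = A at hA ⊢
  generalize below (knight (2 * m)) (Oc (2 * m) o) = B at hB ⊢
  rcases x with ⟨⟨s', hs'⟩, ⟨t', ht'⟩⟩
  rcases o with ⟨⟨s, hs⟩, ⟨t, ht⟩⟩
  simp only [K0, Matrix.of_apply, aE, bE] at *
  by_cases h1 : (s' = s ∨ s' = s + 1) ∧ t' = t
  · rw [if_pos h1]
    obtain ⟨h1, rfl⟩ := h1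
    have e1 : (((-1 : ℤ) ^ (s + (if t' = m ∧ s + 1 ≤ m then 1 else 0) + if m + 1 ≤ t' then 1 else 0) *
        (-1) ^ (s' + (if t' + 1 = m ∧ s' ≤ m then 1 else 0) + if m ≤ t' then 1 else 0) *
        (-1) ^ (A + B) : ℤ) : ℚ) = 1 := by
      push_cast
      rw [← pow_add, ← pow_add]
      apply neg_pow_eq_one
      rcases h1 with rfl | rfl
      · split_ifs at hA hB ⊢ <;> omega
      · split_ifs at hA hB ⊢ <;> omega
    rw [e1, if_neg (show ¬ ((s = m ∧ t' = m) ∧ (s' = m ∧ t' + 1 = m)) by omega)]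
    rcases h1 with rfl | rfl
    · simp
    · simp
  · rw [if_neg h1]
    by_cases h2 : (s' = s ∨ s' = s + 1) ∧ t' + 1 = t
    · rw [if_pos h2]
      obtain ⟨h2, rfl⟩ := h2
      rcases h2 with rfl | rfl
      · by_cases h3 : s' = m ∧ t' + 1 = m
        · rw [if_pos (show (s' = m ∧ t' + 1 = m) ∧ (s' = m ∧ t' + 1 = m) from ⟨h3, h3⟩)]
          push_cast
          rw [mul_one, ← pow_add]
          apply neg_pow_eq_neg
          split_ifs <;> omega
        · rw [if_neg (show ¬ ((s' = m ∧ t' + 1 = m) ∧ (s' = m ∧ t' + 1 = m)) from fun h => h3 h.2)]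
          have e1 : (((-1 : ℤ) ^ (s' + (if t' + 1 = m ∧ s' + 1 ≤ m then 1 else 0) +
              if m + 1 ≤ t' + 1 then 1 else 0) *
              (-1) ^ (s' + (if t' + 1 = m ∧ s' ≤ m then 1 else 0) + if m ≤ t' then 1 else 0) *
              1 : ℤ) : ℚ) = 1 := by
            push_cast
            rw [mul_one, ← pow_add]
            apply neg_pow_eq_one
            split_ifs <;> omega
          rw [e1]
          simp
      · rw [if_neg (show ¬ ((s = m ∧ t' + 1 = m) ∧ (s + 1 = m ∧ t' + 1 = m)) by omega)]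
        have e1 : (((-1 : ℤ) ^ (s + (if t' + 1 = m ∧ s + 1 ≤ m then 1 else 0) +
            if m + 1 ≤ t' + 1 then 1 else 0) *
            (-1) ^ (s + 1 + (if t' + 1 = m ∧ s + 1 ≤ m then 1 else 0) + if m ≤ t' then 1 else 0) *
            1 : ℤ) : ℚ) = -1 := by
          push_cast
          rw [mul_one, ← pow_add]
          apply neg_pow_eq_neg
          split_ifs <;> omega
        rw [e1]
        simp
    · rw [if_neg h2, if_neg (show ¬ ((s = m ∧ t = m) ∧ (s' = m ∧ t' + 1 = m)) by omega)]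
      push_cast
      rw [mul_zero]
      by_cases h3 : s' = s + 1
      · rw [if_pos h3, if_neg (by omega : ¬ t' = t), if_neg (by omega : ¬ t' + 1 = t),
          if_neg (by omega : ¬ s' = s)]
        simp
      · by_cases h4 : s' = s
        · rw [if_neg h3, if_pos h4, if_neg (by omega : ¬ t' = t), if_neg (by omega : ¬ t' + 1 = t)]
          simp
        · rw [if_neg h3, if_neg h4]
          simp

/-- gauge exponents, `n = 2m+1` -/
def aO (m : ℕ) (o : O (2 * m + 1)) : ℕ := o.1 + o.2 + 1 + (if m + 1 ≤ (o.2 : ℕ) then 1 else 0)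

def bO (m : ℕ) (x : E (2 * m + 1)) : ℕ := x.1 + x.2 + (if m ≤ (x.2 : ℕ) then 1 else 0)

theorem gauge_odd (m : ℕ) (hm : 1 ≤ m) (o : O (2 * m + 1)) (x : E (2 * m + 1))
    (ho : ¬ ((o.1 : ℕ) = m + 1 ∧ (o.2 : ℕ) = m)) (hx : ¬ ((x.1 : ℕ) = m ∧ (x.2 : ℕ) = m)) :
    (((-1 : ℤ) ^ (aO m o) * (-1 : ℤ) ^ (bO m x) * kast (knight (2 * m + 1)) (Oc _ o) (Ec _ x) : ℤ) : ℚ) =
      if ((o.1 : ℕ) = m ∧ (o.2 : ℕ) = m) ∧ ((x.1 : ℕ) = m + 1 ∧ (x.2 : ℕ) = m) then -1
      else K0 (2 * m + 1) o x := by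
  have hA := above_knight (2 * m + 1) (by omega) x
  have hB := below_knight (2 * m + 1) (by omega) o
  rw [kast_eq]
  generalize above (knight (2 * m + 1)) (Ec (2 * m + 1) x) = A at hA ⊢
  generalize below (knight (2 * m + 1)) (Oc (2 * m + 1) o) = B at hB ⊢
  rcases x with ⟨⟨s', hs'⟩, ⟨t', ht'⟩⟩
  rcases o with ⟨⟨s, hs⟩, ⟨t, ht⟩⟩
  simp only [K0, Matrix.of_apply, aO, bO] at *
  by_cases h1 : (s' = s ∨ s' = s + 1) ∧ t' = t
  · rw [if_pos h1]
    obtain ⟨h1, rfl⟩ := h1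
    by_cases h3 : (s = m ∧ t' = m) ∧ (s' = m + 1 ∧ t' = m)
    · rw [if_pos h3]
      push_cast
      rw [← pow_add, ← pow_add]
      apply neg_pow_eq_neg
      split_ifs at hA hB ⊢ <;> omega
    · rw [if_neg h3]
      have e1 : (((-1 : ℤ) ^ (s + t' + 1 + (if m + 1 ≤ t' then 1 else 0)) *
          (-1) ^ (s' + t' + (if m ≤ t' then 1 else 0)) * (-1) ^ (A + B) : ℤ) : ℚ) = 1 := by
        push_cast
        rw [← pow_add, ← pow_add]
        apply neg_pow_eq_one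
        rcases h1 with rfl | rfl
        · split_ifs at hA hB ⊢ <;> omega
        · split_ifs at hA hB ⊢ <;> omega
      rw [e1]
      rcases h1 with rfl | rfl
      · simp
      · simp
  · rw [if_neg h1, if_neg (by omega : ¬ ((s = m ∧ t = m) ∧ (s' = m + 1 ∧ t' = m)))]
    by_cases h2 : (s' = s ∨ s' = s + 1) ∧ t' + 1 = t
    · rw [if_pos h2]
      obtain ⟨h2, rfl⟩ := h2
      rcases h2 with rfl | rfl
      · have e1 : (((-1 : ℤ) ^ (s' + (t' + 1) + 1 + (if m + 1 ≤ t' + 1 then 1 else 0)) *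
            (-1) ^ (s' + t' + (if m ≤ t' then 1 else 0)) * 1 : ℤ) : ℚ) = 1 := by
          push_cast
          rw [mul_one, ← pow_add]
          apply neg_pow_eq_one
          split_ifs <;> omega
        rw [e1]
        simp
      · have e1 : (((-1 : ℤ) ^ (s + (t' + 1) + 1 + (if m + 1 ≤ t' + 1 then 1 else 0)) *
            (-1) ^ (s + 1 + t' + (if m ≤ t' then 1 else 0)) * 1 : ℤ) : ℚ) = -1 := by
          push_cast
          rw [mul_one, ← pow_add]
          apply neg_pow_eq_neg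
          split_ifs <;> omega
        rw [e1]
        simp
    · rw [if_neg h2]
      push_cast
      rw [mul_zero]
      by_cases h3 : s' = s + 1
      · rw [if_pos h3, if_neg (by omega : ¬ t' = t), if_neg (by omega : ¬ t' + 1 = t),
          if_neg (by omega : ¬ s' = s)]
        simp
      · by_cases h4 : s' = s
        · rw [if_neg h3, if_pos h4, if_neg (by omega : ¬ t' = t), if_neg (by omega : ¬ t' + 1 = t)]
          simp
        · rw [if_neg h3, if_neg h4]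
          simp

end H958R6
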