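import Pool.Agent.Helper848.Kast
import Pool.Agent.Helper848.AztecDet
import Pool.Agent.H958R6.Defs

/-!
# The knight's move region: cells, counts, gauge
-/

namespace H958R6

open Finset Pool.Agent.Helper848
open Pool.Agent.Helper848.AztecDet (E O K0)

theorem mem_aztec (n : ℕ) (p : ℤ × ℤ) : p ∈ aztec n ↔
    (-(n:ℤ) ≤ p.1 + p.2 + 1 ∧ p.1 + p.2 + 1 ≤ n) ∧ (-(n:ℤ) ≤ p.1 - p.2 ∧ p.1 - p.2 ≤ n) := by
  unfold aztec
  rw [mem_filter, mem_product, mem_Icc, mem_Icc]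
  rcases abs_cases (2 * p.1 + 1) with h1 | h1 <;> rcases abs_cases (2 * p.2 + 1) with h2 | h2 <;>
    omega

/-- cells with even first diagonal coordinate -/
def Ec (n : ℕ) (x : E n) : ℤ × ℤ := ((x.1 : ℕ) + (x.2 : ℕ) - (n : ℤ), (x.1 : ℕ) - (x.2 : ℕ) - 1)

/-- cells with odd first diagonal coordinate -/
def Oc (n : ℕ) (o : O n) : ℤ × ℤ := ((o.1 : ℕ) + (o.2 : ℕ) - (n : ℤ), (o.1 : ℕ) - (o.2 : ℕ))

theorem Ec_inj (n : ℕ) : Function.Injective (Ec n) := by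
  rintro ⟨⟨s, hs⟩, ⟨t, ht⟩⟩ ⟨⟨s', hs'⟩, ⟨t', ht'⟩⟩ h
  simp only [Ec, Prod.mk.injEq] at h
  simp only [Prod.mk.injEq, Fin.mk.injEq]
  omega

theorem Oc_inj (n : ℕ) : Function.Injective (Oc n) := by
  rintro ⟨⟨s, hs⟩, ⟨t, ht⟩⟩ ⟨⟨s', hs'⟩, ⟨t', ht'⟩⟩ h
  simp only [Oc, Prod.mk.injEq] at h
  simp only [Prod.mk.injEq, Fin.mk.injEq]
  omega

theorem exists_Ec (n : ℕ) (p : ℤ × ℤ) : (∃ x, Ec n x = p) ↔ p ∈ aztec n ∧ Even (p.1 + p.2 + (n + 1)) := by
  rw [mem_aztec]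
  constructor
  · rintro ⟨⟨⟨s, hs⟩, ⟨t, ht⟩⟩, rfl⟩
    simp only [Ec]
    refine ⟨by omega, ?_⟩
    rw [Int.even_iff]; omega
  · rintro ⟨h1, h2⟩
    rw [Int.even_iff] at h2
    refine ⟨(⟨((p.1 + p.2 + 1 + n) / 2).toNat, by omega⟩, ⟨((p.1 - p.2 + n) / 2).toNat, by omega⟩), ?_⟩
    simp only [Ec]
    ext <;> simp only <;> omega

theorem exists_Oc (n : ℕ) (p : ℤ × ℤ) : (∃ x, Oc n x = p) ↔ p ∈ aztec n ∧ ¬ Even (p.1 + p.2 + (n + 1)) := by
  rw [mem_aztec]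
  constructor
  · rintro ⟨⟨⟨s, hs⟩, ⟨t, ht⟩⟩, rfl⟩
    simp only [Oc]
    refine ⟨by omega, ?_⟩
    rw [Int.even_iff]; omega
  · rintro ⟨h1, h2⟩
    rw [Int.even_iff] at h2
    refine ⟨(⟨((p.1 + p.2 + 1 + n) / 2).toNat, by omega⟩, ⟨((p.1 - p.2 + n) / 2).toNat, by omega⟩), ?_⟩
    simp only [Oc]
    ext <;> simp only <;> omega

theorem above_E (n : ℕ) (x : E n) : above (aztec n) (Ec n x) = n - x.1 := by
  rcases x with ⟨⟨s, hs⟩, ⟨t, ht⟩⟩
  unfold above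
  have h : ((aztec n).filter fun q => q.2 - q.1 = (Ec n (⟨s, hs⟩, ⟨t, ht⟩)).2 -
      (Ec n (⟨s, hs⟩, ⟨t, ht⟩)).1 ∧ (Ec n (⟨s, hs⟩, ⟨t, ht⟩)).1 < q.1) =
      (range (n - s)).image fun k : ℕ => ((s : ℤ) + t - n + 1 + k, (s : ℤ) - t - 1 + 1 + k) := by
    ext q
    rw [mem_filter, mem_aztec, mem_image]
    simp only [mem_range, Ec]
    constructor
    · rintro ⟨h1, h2, h3⟩
      refine ⟨(q.1 - (s + t - n) - 1).toNat, ?_, ?_⟩
      · omega
      · ext <;> simp only <;> omega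
    · rintro ⟨k, hk, rfl⟩
      simp only
      omega
  rw [h, card_image_of_injective, card_range]
  intro a b hab
  rw [Prod.mk.injEq] at hab
  omega

theorem below_O (n : ℕ) (x : O n) : below (aztec n) (Oc n x) = x.1 := by
  rcases x with ⟨⟨s, hs⟩, ⟨t, ht⟩⟩
  unfold below
  have h : ((aztec n).filter fun q => q.2 - q.1 = (Oc n (⟨s, hs⟩, ⟨t, ht⟩)).2 -
      (Oc n (⟨s, hs⟩, ⟨t, ht⟩)).1 ∧ q.1 < (Oc n (⟨s, hs⟩, ⟨t, ht⟩)).1) =
      (range s).image fun k : ℕ => ((s : ℤ) + t - n - 1 - k, (s : ℤ) - t - 1 - k) := by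
    ext q
    rw [mem_filter, mem_aztec, mem_image]
    simp only [mem_range, Oc]
    constructor
    · rintro ⟨h1, h2, h3⟩
      refine ⟨((s + t - n) - 1 - q.1).toNat, ?_, ?_⟩
      · omega
      · ext <;> simp only <;> omega
    · rintro ⟨k, hk, rfl⟩
      simp only
      omega
  rw [h, card_image_of_injective, card_range]
  intro a b hab
  rw [Prod.mk.injEq] at hab
  omega

theorem card_sd (A : Finset (ℤ × ℤ)) (P : ℤ × ℤ → Prop) [DecidablePred P] (h1 h2 : ℤ × ℤ)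
    (hne : h1 ≠ h2) (m1 : h1 ∈ A) (m2 : h2 ∈ A) :
    ((A \ {h1, h2}).filter P).card + (if P h1 then 1 else 0) + (if P h2 then 1 else 0) =
      (A.filter P).card := by
  have hA : A = insert h1 (insert h2 (A \ {h1, h2})) := by
    ext z
    simp only [mem_insert, mem_sdiff, mem_singleton]
    constructor
    · intro h
      by_cases e1 : z = h1
      · left; exact e1
      · by_cases e2 : z = h2
        · right; left; exact e2
        · right; right; exact ⟨h, by tauto⟩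
    · rintro (rfl | rfl | h)
      · exact m1
      · exact m2
      · exact h.1
  have n2 : h2 ∉ (A \ {h1, h2}).filter P := by simp
  have n1 : h1 ∉ (insert h2 (A \ {h1, h2})).filter P := by
    simp [hne]
  conv_rhs => rw [hA]
  rw [filter_insert, filter_insert]
  have n1' : h1 ∉ (A \ {h1, h2}).filter P := by simp
  by_cases p1 : P h1 <;> by_cases p2 : P h2
  · rw [if_pos p1, if_pos p2, if_pos p1, if_pos p2, card_insert_of_notMem, card_insert_of_notMem n2]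
    rw [mem_insert]; tauto
  · rw [if_pos p1, if_neg p2, if_pos p1, if_neg p2, card_insert_of_notMem n1']
  · rw [if_neg p1, if_pos p2, if_neg p1, if_pos p2, card_insert_of_notMem n2]
  · rw [if_neg p1, if_neg p2, if_neg p1, if_neg p2]
    rfl

theorem mem_holes (n : ℕ) (hn : 2 ≤ n) : ((-1, -1) : ℤ × ℤ) ∈ aztec n ∧ ((0, 1) : ℤ × ℤ) ∈ aztec n := by
  rw [mem_aztec, mem_aztec]
  simp only
  omega

theorem above_knight (n : ℕ) (hn : 2 ≤ n) (x : E n) :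
    above (knight n) (Ec n x) + (if (n : ℤ) = 2 * x.2 + 1 ∧ (x.1 : ℤ) + x.2 + 1 < n then 1 else 0) +
      (if (n : ℤ) = 2 * x.2 + 2 ∧ (x.1 : ℤ) + x.2 < n then 1 else 0) = n - x.1 := by
  have h := card_sd (aztec n) (fun q => q.2 - q.1 = (Ec n x).2 - (Ec n x).1 ∧ (Ec n x).1 < q.1)
    (-1, -1) (0, 1) (by decide) (mem_holes n hn).1 (mem_holes n hn).2
  rw [← above_E n x]
  unfold above knight
  rw [← h]
  congr 1
  · congr 1
    apply if_congr _ rfl rfl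
    simp only [Ec]
    omega
  · apply if_congr _ rfl rfl
    simp only [Ec]
    omega

theorem below_knight (n : ℕ) (hn : 2 ≤ n) (x : O n) :
    below (knight n) (Oc n x) + (if (n : ℤ) = 2 * x.2 ∧ (n : ℤ) < (x.1 : ℤ) + x.2 + 1 then 1 else 0) +
      (if (n : ℤ) = 2 * x.2 + 1 ∧ (n : ℤ) < (x.1 : ℤ) + x.2 then 1 else 0) = x.1 := by
  have h := card_sd (aztec n) (fun q => q.2 - q.1 = (Oc n x).2 - (Oc n x).1 ∧ q.1 < (Oc n x).1)
    (-1, -1) (0, 1) (by decide) (mem_holes n hn).1 (mem_holes n hn).2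
  conv_rhs => rw [← below_O n x]
  unfold below knight
  rw [← h]
  congr 1
  · congr 1
    apply if_congr _ rfl rfl
    simp only [Oc]
    omega
  · apply if_congr _ rfl rfl
    simp only [Oc]
    omega

end H958R6
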